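import Pool.Agent.Helper2.E8C.Stm

/-!
# The invariant of degree 8 of `W(E_8)` takes both signs on the shells `m = 4` and `m ≥ 7`
-/

set_option autoImplicit false

namespace Pool.Agent.Helper44.E8C.Signs

open Pool.Agent.Q10.E8 Pool.Agent.Helper2.E8C

/-- the form in the power sums -/
def G (p2 p4 p6 p8 : ℤ) : ℤ :=
  15 * p2 ^ 4 - 140 * p4 * p2 ^ 2 + 140 * p4 ^ 2 + 224 * p6 * p2 - 240 * p8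

theorem even_sum (a b c d e f : ℤ) (m : ℕ)
    (h : a ^ 2 + b ^ 2 + c ^ 2 + d ^ 2 + e ^ 2 + f ^ 2 = 2 * (m : ℤ)) :
    (a + b + c + d + e + f) % 2 = 0 := by
  have key : ∀ x : ℤ, ∃ k, x ^ 2 = x + 2 * k := by
    intro x
    obtain ⟨k, hk⟩ := Int.even_mul_pred_self x
    exact ⟨k, by linear_combination hk⟩
  obtain ⟨k1, h1⟩ := key a
  obtain ⟨k2, h2⟩ := key b
  obtain ⟨k3, h3⟩ := key c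
  obtain ⟨k4, h4⟩ := key d
  obtain ⟨k5, h5⟩ := key e
  obtain ⟨k6, h6⟩ := key f
  rw [h1, h2, h3, h4, h5, h6] at h
  omega

theorem form (hF : S_FORM) (a b c d e f : ℤ) (m : ℕ)
    (h : a ^ 2 + b ^ 2 + c ^ 2 + d ^ 2 + e ^ 2 + f ^ 2 = 2 * (m : ℤ)) :
    InShell m ![2 * a, 2 * b, 2 * c, 2 * d, 2 * e, 2 * f, 0, 0] ∧
    2 * rootSum ![2 * a, 2 * b, 2 * c, 2 * d, 2 * e, 2 * f, 0, 0] = 960 * (m : ℤ) ^ 4 +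
      3 * G (a ^ 2 + b ^ 2 + c ^ 2 + d ^ 2 + e ^ 2 + f ^ 2)
        (a ^ 4 + b ^ 4 + c ^ 4 + d ^ 4 + e ^ 4 + f ^ 4)
        (a ^ 6 + b ^ 6 + c ^ 6 + d ^ 6 + e ^ 6 + f ^ 6)
        (a ^ 8 + b ^ 8 + c ^ 8 + d ^ 8 + e ^ 8 + f ^ 8) := by
  have he := even_sum a b c d e f m h
  refine ⟨⟨⟨?_, ?_⟩, ?_⟩, ?_⟩
  · have hz : ∀ i : Fin 8, (![2 * a, 2 * b, 2 * c, 2 * d, 2 * e, 2 * f, 0, 0] : Fin 8 → ℤ) i % 2 = 0 := by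
      intro i
      fin_cases i <;> simp
    intro i j
    rw [hz i, hz j]
  · simp only [Fin.sum_univ_eight]
    simp
    omega
  · simp only [Fin.sum_univ_eight]
    simp
    linear_combination 4 * h
  · have h1 := hF ![a, b, c, d, e, f] (by simp [Fin.sum_univ_six]; omega)
    simp only [Fin.sum_univ_six] at h1
    simp at h1
    rw [h1]
    unfold G
    rw [show (960 : ℤ) * (m : ℤ) ^ 4 = 60 * (2 * (m : ℤ)) ^ 4 by ring, ← h]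
    ring

/-- natural number version of the check for the negative sign -/
def okN (m : ℕ) : ℕ × ℕ × ℕ × ℕ × ℕ × ℕ → Bool := fun (a, b, c, d, e, f) =>
  let p2 := a ^ 2 + b ^ 2 + c ^ 2 + d ^ 2 + e ^ 2 + f ^ 2
  let p4 := a ^ 4 + b ^ 4 + c ^ 4 + d ^ 4 + e ^ 4 + f ^ 4
  let p6 := a ^ 6 + b ^ 6 + c ^ 6 + d ^ 6 + e ^ 6 + f ^ 6
  let p8 := a ^ 8 + b ^ 8 + c ^ 8 + d ^ 8 + e ^ 8 + f ^ 8
  Nat.beq p2 (2 * m) &&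
    Nat.blt (15 * p2 ^ 4 + 140 * p4 ^ 2 + 224 * p6 * p2) (140 * p4 * p2 ^ 2 + 240 * p8)

/-- natural number version of the check for the positive sign -/
def okP (m : ℕ) : ℕ × ℕ × ℕ × ℕ × ℕ × ℕ → Bool := fun (a, b, c, d, e, f) =>
  let p2 := a ^ 2 + b ^ 2 + c ^ 2 + d ^ 2 + e ^ 2 + f ^ 2
  let p4 := a ^ 4 + b ^ 4 + c ^ 4 + d ^ 4 + e ^ 4 + f ^ 4
  let p6 := a ^ 6 + b ^ 6 + c ^ 6 + d ^ 6 + e ^ 6 + f ^ 6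
  let p8 := a ^ 8 + b ^ 8 + c ^ 8 + d ^ 8 + e ^ 8 + f ^ 8
  Nat.beq p2 (2 * m) &&
    Nat.blt (140 * p4 * p2 ^ 2 + 240 * p8) (15 * p2 ^ 4 + 140 * p4 ^ 2 + 224 * p6 * p2)

/-- check of a list of consecutive entries -/
def chk (ok : ℕ → ℕ × ℕ × ℕ × ℕ × ℕ × ℕ → Bool) : ℕ → List (ℕ × ℕ × ℕ × ℕ × ℕ × ℕ) → Bool
  | _, [] => true
  | m, t :: l => ok m t && chk ok (m + 1) l

theorem of_chk (ok : ℕ → ℕ × ℕ × ℕ × ℕ × ℕ × ℕ → Bool) :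
    ∀ (l : List (ℕ × ℕ × ℕ × ℕ × ℕ × ℕ)) (m₀ : ℕ), chk ok m₀ l = true →
      ∀ m, m₀ ≤ m → m < m₀ + l.length → ∃ t, ok m t = true
  | [], m₀, _, m, h1, h2 => by simp at h2; omega
  | t :: l, m₀, h, m, h1, h2 => by
    simp only [chk, Bool.and_eq_true] at h
    rcases Nat.eq_or_lt_of_le h1 with h3 | h3
    · exact ⟨t, by rw [← h3]; exact h.1⟩
    · exact of_chk ok l (m₀ + 1) h.2 m h3 (by simp only [List.length_cons] at h2; omega)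

/-- vectors for `m = 7, ..., 312` -/
def tabN : List (ℕ × ℕ × ℕ × ℕ × ℕ × ℕ) := [
  (3,1,1,1,1,1), (4,0,0,0,0,0), (4,1,1,0,0,0), (4,1,1,1,1,0), (3,2,2,2,1,0), (4,2,1,1,1,1),
  (5,1,0,0,0,0), (5,1,1,1,0,0), (5,1,1,1,1,1), (4,2,2,2,2,0), (4,3,2,2,1,0), (6,0,0,0,0,0),
  (6,1,1,0,0,0), (6,1,1,1,1,0), (5,2,2,2,2,1), (6,2,1,1,1,1), (6,2,2,1,1,0), (6,2,2,2,0,0),
  (7,1,0,0,0,0), (7,1,1,1,0,0), (7,2,1,0,0,0), (7,2,1,1,1,0), (7,2,2,1,0,0), (7,2,2,1,1,1),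
  (7,2,2,2,1,0), (8,0,0,0,0,0), (8,1,1,0,0,0), (8,2,0,0,0,0), (8,2,1,1,0,0), (8,2,2,0,0,0),
  (8,2,2,1,1,0), (8,2,2,2,0,0), (8,2,2,2,1,1), (8,2,2,2,2,0), (9,1,0,0,0,0), (9,1,1,1,0,0),
  (9,2,1,0,0,0), (9,2,1,1,1,0), (9,2,2,1,0,0), (9,2,2,1,1,1), (9,2,2,2,1,0), (8,4,2,2,2,2),
  (9,3,2,2,0,0), (10,0,0,0,0,0), (10,1,1,0,0,0), (10,2,0,0,0,0), (10,2,1,1,0,0), (10,2,2,0,0,0),
  (10,2,2,1,1,0), (10,3,1,1,1,0), (10,3,2,1,0,0), (10,3,2,1,1,1), (10,3,2,2,1,0), (10,3,3,1,1,0),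
  (11,1,0,0,0,0), (11,1,1,1,0,0), (11,2,1,0,0,0), (11,2,1,1,1,0), (11,3,0,0,0,0), (11,3,1,1,0,0),
  (11,3,2,0,0,0), (11,3,2,1,1,0), (11,3,2,2,0,0), (11,3,3,1,0,0), (11,3,3,1,1,1), (12,0,0,0,0,0),
  (12,1,1,0,0,0), (12,2,0,0,0,0), (12,2,1,1,0,0), (12,2,2,0,0,0), (12,3,1,0,0,0), (12,3,1,1,1,0),
  (12,3,2,1,0,0), (12,3,2,1,1,1), (12,3,3,0,0,0), (12,3,3,1,1,0), (12,3,3,2,0,0), (12,3,3,2,1,1),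
  (13,1,0,0,0,0), (13,1,1,1,0,0), (13,2,1,0,0,0), (13,2,1,1,1,0), (13,3,0,0,0,0), (13,3,1,1,0,0),
  (13,3,2,0,0,0), (13,3,2,1,1,0), (13,3,2,2,0,0), (13,3,3,1,0,0), (13,3,3,1,1,1), (13,4,2,1,1,1),
  (13,4,2,2,1,0), (14,0,0,0,0,0), (14,1,1,0,0,0), (14,2,0,0,0,0), (14,2,1,1,0,0), (14,2,2,0,0,0),
  (14,3,1,0,0,0), (14,3,1,1,1,0), (14,3,2,1,0,0), (14,4,0,0,0,0), (14,4,1,1,0,0), (14,4,2,0,0,0),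
  (14,4,2,1,1,0), (14,4,2,2,0,0), (14,4,3,1,0,0), (14,4,3,1,1,1), (15,1,0,0,0,0), (15,1,1,1,0,0),
  (15,2,1,0,0,0), (15,2,1,1,1,0), (15,3,0,0,0,0), (15,3,1,1,0,0), (15,3,2,0,0,0), (15,3,2,1,1,0),
  (15,4,1,0,0,0), (15,4,1,1,1,0), (15,4,2,1,0,0), (15,4,2,1,1,1), (15,4,3,0,0,0), (15,4,3,1,1,0),
  (15,4,3,2,0,0), (16,0,0,0,0,0), (16,1,1,0,0,0), (16,2,0,0,0,0), (16,2,1,1,0,0), (16,2,2,0,0,0),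
  (16,3,1,0,0,0), (16,3,1,1,1,0), (16,3,2,1,0,0), (16,4,0,0,0,0), (16,4,1,1,0,0), (16,4,2,0,0,0),
  (16,4,2,1,1,0), (16,4,2,2,0,0), (16,4,3,1,0,0), (16,4,3,1,1,1), (16,4,3,2,1,0), (16,4,4,0,0,0),
  (17,1,0,0,0,0), (17,1,1,1,0,0), (17,2,1,0,0,0), (17,2,1,1,1,0), (17,3,0,0,0,0), (17,3,1,1,0,0),
  (17,3,2,0,0,0), (17,3,2,1,1,0), (17,4,1,0,0,0), (17,4,1,1,1,0), (17,4,2,1,0,0), (17,4,2,1,1,1),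
  (17,4,3,0,0,0), (17,5,1,1,0,0), (17,5,2,0,0,0), (17,5,2,1,1,0), (17,5,2,2,0,0), (18,0,0,0,0,0),
  (18,1,1,0,0,0), (18,2,0,0,0,0), (18,2,1,1,0,0), (18,2,2,0,0,0), (18,3,1,0,0,0), (18,3,1,1,1,0),
  (18,3,2,1,0,0), (18,4,0,0,0,0), (18,4,1,1,0,0), (18,4,2,0,0,0), (18,4,2,1,1,0), (18,4,2,2,0,0),
  (18,5,1,0,0,0), (18,5,1,1,1,0), (18,5,2,1,0,0), (18,5,2,1,1,1), (18,5,3,0,0,0), (18,5,3,1,1,0),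
  (19,1,0,0,0,0), (19,1,1,1,0,0), (19,2,1,0,0,0), (19,2,1,1,1,0), (19,3,0,0,0,0), (19,3,1,1,0,0),
  (19,3,2,0,0,0), (19,3,2,1,1,0), (19,4,1,0,0,0), (19,4,1,1,1,0), (19,4,2,1,0,0), (19,4,2,1,1,1),
  (19,5,0,0,0,0), (19,5,1,1,0,0), (19,5,2,0,0,0), (19,5,2,1,1,0), (19,5,2,2,0,0), (19,5,3,1,0,0),
  (19,5,3,1,1,1), (20,0,0,0,0,0), (20,1,1,0,0,0), (20,2,0,0,0,0), (20,2,1,1,0,0), (20,2,2,0,0,0),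
  (20,3,1,0,0,0), (20,3,1,1,1,0), (20,3,2,1,0,0), (20,4,0,0,0,0), (20,4,1,1,0,0), (20,4,2,0,0,0),
  (20,4,2,1,1,0), (20,4,2,2,0,0), (20,5,1,0,0,0), (20,5,1,1,1,0), (20,5,2,1,0,0), (20,5,2,1,1,1),
  (20,5,3,0,0,0), (20,5,3,1,1,0), (20,5,3,2,0,0), (20,5,3,2,1,1), (21,1,0,0,0,0), (21,1,1,1,0,0),
  (21,2,1,0,0,0), (21,2,1,1,1,0), (21,3,0,0,0,0), (21,3,1,1,0,0), (21,3,2,0,0,0), (21,3,2,1,1,0),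
  (21,4,1,0,0,0), (21,4,1,1,1,0), (21,4,2,1,0,0), (21,4,2,1,1,1), (21,5,0,0,0,0), (21,5,1,1,0,0),
  (21,5,2,0,0,0), (21,5,2,1,1,0), (21,5,2,2,0,0), (21,5,3,1,0,0), (21,6,1,0,0,0), (21,6,1,1,1,0),
  (21,6,2,1,0,0), (22,0,0,0,0,0), (22,1,1,0,0,0), (22,2,0,0,0,0), (22,2,1,1,0,0), (22,2,2,0,0,0),
  (22,3,1,0,0,0), (22,3,1,1,1,0), (22,3,2,1,0,0), (22,4,0,0,0,0), (22,4,1,1,0,0), (22,4,2,0,0,0),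
  (22,4,2,1,1,0), (22,4,2,2,0,0), (22,5,1,0,0,0), (22,5,1,1,1,0), (22,5,2,1,0,0), (22,5,2,1,1,1),
  (22,5,3,0,0,0), (22,6,0,0,0,0), (22,6,1,1,0,0), (22,6,2,0,0,0), (22,6,2,1,1,0), (22,6,2,2,0,0),
  (23,1,0,0,0,0), (23,1,1,1,0,0), (23,2,1,0,0,0), (23,2,1,1,1,0), (23,3,0,0,0,0), (23,3,1,1,0,0),
  (23,3,2,0,0,0), (23,3,2,1,1,0), (23,4,1,0,0,0), (23,4,1,1,1,0), (23,4,2,1,0,0), (23,4,2,1,1,1),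
  (23,5,0,0,0,0), (23,5,1,1,0,0), (23,5,2,0,0,0), (23,5,2,1,1,0), (23,5,2,2,0,0), (23,5,3,1,0,0),
  (23,6,1,0,0,0), (23,6,1,1,1,0), (23,6,2,1,0,0), (23,6,2,1,1,1), (23,6,3,0,0,0), (24,0,0,0,0,0),
  (24,1,1,0,0,0), (24,2,0,0,0,0), (24,2,1,1,0,0), (24,2,2,0,0,0), (24,3,1,0,0,0), (24,3,1,1,1,0),
  (24,3,2,1,0,0), (24,4,0,0,0,0), (24,4,1,1,0,0), (24,4,2,0,0,0), (24,4,2,1,1,0), (24,4,2,2,0,0),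
  (24,5,1,0,0,0), (24,5,1,1,1,0), (24,5,2,1,0,0), (24,5,2,1,1,1), (24,5,3,0,0,0), (24,6,0,0,0,0),
  (24,6,1,1,0,0), (24,6,2,0,0,0), (24,6,2,1,1,0), (24,6,2,2,0,0), (24,6,3,1,0,0), (24,6,3,1,1,1)]

/-- vectors for `m = 7, ..., 120` -/
def tabP : List (ℕ × ℕ × ℕ × ℕ × ℕ × ℕ) := [
  (3,2,1,0,0,0), (3,2,1,1,1,0), (3,3,0,0,0,0), (4,2,0,0,0,0), (4,2,1,1,0,0), (4,2,2,0,0,0),
  (4,3,1,0,0,0), (4,3,1,1,1,0), (5,2,1,0,0,0), (5,2,1,1,1,0), (5,3,0,0,0,0), (5,3,1,1,0,0),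
  (5,3,2,0,0,0), (6,2,0,0,0,0), (6,2,1,1,0,0), (6,2,2,0,0,0), (6,3,1,0,0,0), (6,3,1,1,1,0),
  (6,3,2,1,0,0), (6,4,0,0,0,0), (6,4,1,1,0,0), (6,4,2,0,0,0), (7,3,0,0,0,0), (7,3,1,1,0,0),
  (7,3,2,0,0,0), (7,3,2,1,1,0), (7,4,1,0,0,0), (7,4,1,1,1,0), (7,4,2,1,0,0), (7,4,2,1,1,1),
  (8,3,1,0,0,0), (8,3,1,1,1,0), (8,3,2,1,0,0), (8,4,0,0,0,0), (8,4,1,1,0,0), (8,4,2,0,0,0),
  (8,4,2,1,1,0), (8,4,2,2,0,0), (9,3,0,0,0,0), (9,3,1,1,0,0), (9,3,2,0,0,0), (9,3,2,1,1,0),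
  (9,4,1,0,0,0), (9,4,1,1,1,0), (9,4,2,1,0,0), (9,4,2,1,1,1), (9,5,0,0,0,0), (9,5,1,1,0,0),
  (10,3,1,0,0,0), (9,5,2,1,1,0), (9,5,2,2,0,0), (10,4,0,0,0,0), (10,4,1,1,0,0), (10,4,2,0,0,0),
  (10,4,2,1,1,0), (10,4,2,2,0,0), (10,5,1,0,0,0), (10,5,1,1,1,0), (10,5,2,1,0,0), (10,5,2,1,1,1),
  (10,5,3,0,0,0), (10,6,0,0,0,0), (11,4,1,0,0,0), (11,4,1,1,1,0), (11,4,2,1,0,0), (11,4,2,1,1,1),
  (11,5,0,0,0,0), (11,5,1,1,0,0), (11,5,2,0,0,0), (11,5,2,1,1,0), (11,5,2,2,0,0), (11,5,3,1,0,0),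
  (11,6,1,0,0,0), (12,4,0,0,0,0), (12,4,1,1,0,0), (12,4,2,0,0,0), (12,4,2,1,1,0), (12,4,2,2,0,0),
  (12,5,1,0,0,0), (12,5,1,1,1,0), (12,5,2,1,0,0), (12,5,2,1,1,1), (12,5,3,0,0,0), (12,6,0,0,0,0),
  (12,6,1,1,0,0), (12,6,2,0,0,0), (13,4,1,0,0,0), (13,4,1,1,1,0), (13,4,2,1,0,0), (12,6,3,1,1,1),
  (13,5,0,0,0,0), (13,5,1,1,0,0), (13,5,2,0,0,0), (13,5,2,1,1,0), (13,5,2,2,0,0), (13,5,3,1,0,0),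
  (13,6,1,0,0,0), (13,6,1,1,1,0), (13,6,2,1,0,0), (13,6,2,1,1,1), (13,6,3,0,0,0), (13,6,3,1,1,0),
  (13,7,0,0,0,0), (13,7,1,1,0,0), (14,5,1,0,0,0), (14,5,1,1,1,0), (14,5,2,1,0,0), (14,5,2,1,1,1),
  (14,5,3,0,0,0), (14,6,0,0,0,0), (14,6,1,1,0,0), (14,6,2,0,0,0), (14,6,2,1,1,0), (14,6,2,2,0,0)]

theorem tabN_ok : chk okN 7 tabN = true := by decide +kernel

theorem tabP_ok : chk okP 7 tabP = true := by decide +kernel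

theorem neg_of_ok (hF : S_FORM) {m : ℕ} {t : ℕ × ℕ × ℕ × ℕ × ℕ × ℕ} (h : okN m t = true) :
    ∃ v, InShell m v ∧ rootSum v < 480 * (m : ℤ) ^ 4 := by
  obtain ⟨a, b, c, d, e, f⟩ := t
  simp only [okN, Bool.and_eq_true, Nat.beq_eq, Nat.blt_eq] at h
  obtain ⟨h1, h2⟩ := h
  obtain ⟨k1, k2⟩ := form hF a b c d e f m (by exact_mod_cast h1)
  refine ⟨_, k1, ?_⟩
  have h3 : G ((a : ℤ) ^ 2 + (b : ℤ) ^ 2 + (c : ℤ) ^ 2 + (d : ℤ) ^ 2 + (e : ℤ) ^ 2 + (f : ℤ) ^ 2)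
        ((a : ℤ) ^ 4 + (b : ℤ) ^ 4 + (c : ℤ) ^ 4 + (d : ℤ) ^ 4 + (e : ℤ) ^ 4 + (f : ℤ) ^ 4)
        ((a : ℤ) ^ 6 + (b : ℤ) ^ 6 + (c : ℤ) ^ 6 + (d : ℤ) ^ 6 + (e : ℤ) ^ 6 + (f : ℤ) ^ 6)
        ((a : ℤ) ^ 8 + (b : ℤ) ^ 8 + (c : ℤ) ^ 8 + (d : ℤ) ^ 8 + (e : ℤ) ^ 8 + (f : ℤ) ^ 8) < 0 := by
    have h4 := Int.ofNat_lt.2 h2
    push_cast at h4
    unfold G
    linarith
  linarith

theorem pos_of_ok (hF : S_FORM) {m : ℕ} {t : ℕ × ℕ × ℕ × ℕ × ℕ × ℕ} (h : okP m t = true) :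
    ∃ v, InShell m v ∧ 480 * (m : ℤ) ^ 4 < rootSum v := by
  obtain ⟨a, b, c, d, e, f⟩ := t
  simp only [okP, Bool.and_eq_true, Nat.beq_eq, Nat.blt_eq] at h
  obtain ⟨h1, h2⟩ := h
  obtain ⟨k1, k2⟩ := form hF a b c d e f m (by exact_mod_cast h1)
  refine ⟨_, k1, ?_⟩
  have h3 : 0 < G ((a : ℤ) ^ 2 + (b : ℤ) ^ 2 + (c : ℤ) ^ 2 + (d : ℤ) ^ 2 + (e : ℤ) ^ 2 + (f : ℤ) ^ 2)
        ((a : ℤ) ^ 4 + (b : ℤ) ^ 4 + (c : ℤ) ^ 4 + (d : ℤ) ^ 4 + (e : ℤ) ^ 4 + (f : ℤ) ^ 4)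
        ((a : ℤ) ^ 6 + (b : ℤ) ^ 6 + (c : ℤ) ^ 6 + (d : ℤ) ^ 6 + (e : ℤ) ^ 6 + (f : ℤ) ^ 6)
        ((a : ℤ) ^ 8 + (b : ℤ) ^ 8 + (c : ℤ) ^ 8 + (d : ℤ) ^ 8 + (e : ℤ) ^ 8 + (f : ℤ) ^ 8) := by
    have h4 := Int.ofNat_lt.2 h2
    push_cast at h4
    unfold G
    linarith
  linarith

/-- bounds for the power sums of four squares -/
theorem qbounds (a b c d n : ℤ) (h : a ^ 2 + b ^ 2 + c ^ 2 + d ^ 2 = n) :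
    0 ≤ n ∧ 0 ≤ a ^ 4 + b ^ 4 + c ^ 4 + d ^ 4 ∧ a ^ 4 + b ^ 4 + c ^ 4 + d ^ 4 ≤ n ^ 2 ∧
    0 ≤ a ^ 6 + b ^ 6 + c ^ 6 + d ^ 6 ∧
    a ^ 6 + b ^ 6 + c ^ 6 + d ^ 6 ≤ n * (a ^ 4 + b ^ 4 + c ^ 4 + d ^ 4) ∧
    0 ≤ a ^ 8 + b ^ 8 + c ^ 8 + d ^ 8 ∧
    a ^ 8 + b ^ 8 + c ^ 8 + d ^ 8 ≤ (a ^ 4 + b ^ 4 + c ^ 4 + d ^ 4) ^ 2 := by
  subst h
  refine ⟨by positivity, by positivity, ?_, by positivity, ?_, by positivity, ?_⟩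
  · have : 0 ≤ 2 * (a ^ 2 * b ^ 2 + a ^ 2 * c ^ 2 + a ^ 2 * d ^ 2 + b ^ 2 * c ^ 2 + b ^ 2 * d ^ 2
      + c ^ 2 * d ^ 2) := by positivity
    nlinarith
  · have : 0 ≤ a ^ 2 * (b ^ 4 + c ^ 4 + d ^ 4) + b ^ 2 * (a ^ 4 + c ^ 4 + d ^ 4)
      + c ^ 2 * (a ^ 4 + b ^ 4 + d ^ 4) + d ^ 2 * (a ^ 4 + b ^ 4 + c ^ 4) := by positivity
    nlinarith
  · have : 0 ≤ 2 * (a ^ 4 * b ^ 4 + a ^ 4 * c ^ 4 + a ^ 4 * d ^ 4 + b ^ 4 * c ^ 4 + b ^ 4 * d ^ 4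
      + c ^ 4 * d ^ 4) := by positivity
    nlinarith

theorem neg_ineq {x n q4 q6 q8 : ℤ} (hx : 25 ≤ x) (hn0 : 0 ≤ n) (hn : n ≤ 2 * x) (h40 : 0 ≤ q4)
    (h4 : q4 ≤ n ^ 2) (h6 : q6 ≤ n * q4) (h8 : 0 ≤ q8) :
    G (x ^ 2 + n) (x ^ 4 + q4) (x ^ 6 + q6) (x ^ 8 + q8) < 0 := by
  have hx0 : 0 ≤ x := by linarith
  have a1 : 0 ≤ x ^ 4 * (n ^ 2 - q4) := mul_nonneg (by positivity) (by linarith)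
  have a2 : 0 ≤ x ^ 2 * (n * q4 - q6) := mul_nonneg (by positivity) (by linarith)
  have a3 : 0 ≤ x ^ 2 * n * q4 := by positivity
  have a4 : 0 ≤ n * (n * q4 - q6) := mul_nonneg hn0 (by linarith)
  have a5 : 0 ≤ n ^ 2 * (n ^ 2 - q4) := mul_nonneg (by positivity) (by linarith)
  have a6 : 0 ≤ (n ^ 2 - q4) * (n ^ 2 + q4) := mul_nonneg (by linarith) (by positivity)
  have e1 : G (x ^ 2 + n) (x ^ 4 + q4) (x ^ 6 + q6) (x ^ 8 + q8) ≤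
      - x ^ 8 + 4 * (x ^ 6 * n) + 90 * (x ^ 4 * n ^ 2) + 60 * (x ^ 2 * n ^ 3) + 239 * n ^ 4 := by
    unfold G
    linarith
  have b1 : x ^ 6 * n ≤ x ^ 6 * (2 * x) := mul_le_mul_of_nonneg_left hn (by positivity)
  have b2 : x ^ 4 * n ^ 2 ≤ x ^ 4 * (2 * x) ^ 2 :=
    mul_le_mul_of_nonneg_left (pow_le_pow_left₀ hn0 hn 2) (by positivity)
  have b3 : x ^ 2 * n ^ 3 ≤ x ^ 2 * (2 * x) ^ 3 :=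
    mul_le_mul_of_nonneg_left (pow_le_pow_left₀ hn0 hn 3) (by positivity)
  have b4 : n ^ 4 ≤ (2 * x) ^ 4 := pow_le_pow_left₀ hn0 hn 4
  have c1 : 0 ≤ x ^ 3 * (x - 25) := mul_nonneg (by positivity) (by linarith)
  have c2 : 0 ≤ x ^ 2 * (x - 25) := mul_nonneg (by positivity) (by linarith)
  have c3 : 0 ≤ x * (x - 25) := mul_nonneg hx0 (by linarith)
  have c4 : - x ^ 4 + 8 * x ^ 3 + 360 * x ^ 2 + 480 * x + 3824 < 0 := by nlinarith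
  have c5 : x ^ 4 * (- x ^ 4 + 8 * x ^ 3 + 360 * x ^ 2 + 480 * x + 3824) < 0 :=
    mul_neg_of_pos_of_neg (by positivity) c4
  nlinarith

theorem pos_ineq {x n q4 q6 q8 : ℤ} (hx : 11 ≤ x) (hn0 : 0 ≤ n) (hn : n ≤ 4 * x) (h40 : 0 ≤ q4)
    (h4 : q4 ≤ n ^ 2) (h60 : 0 ≤ q6) (h8 : q8 ≤ q4 ^ 2) :
    0 < G (2 * x ^ 2 + n) (2 * x ^ 4 + q4) (2 * x ^ 6 + q6) (2 * x ^ 8 + q8) := by
  have hx0 : 0 ≤ x := by linarith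
  have a1 : 0 ≤ x ^ 2 * n * (n ^ 2 - q4) := mul_nonneg (by positivity) (by linarith)
  have a2 : 0 ≤ x ^ 2 * q6 := by positivity
  have a3 : 0 ≤ n * q6 := by positivity
  have a5 : 0 ≤ n ^ 2 * (n ^ 2 - q4) := mul_nonneg (by positivity) (by linarith)
  have a6 : 0 ≤ (n ^ 2 - q4) * (n ^ 2 + q4) := mul_nonneg (by linarith) (by positivity)
  have e1 : 96 * x ^ 8 - 192 * (x ^ 6 * n) + 80 * (x ^ 4 * n ^ 2) - 440 * (x ^ 2 * n ^ 3) - 225 * n ^ 4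
      ≤ G (2 * x ^ 2 + n) (2 * x ^ 4 + q4) (2 * x ^ 6 + q6) (2 * x ^ 8 + q8) := by
    unfold G
    linarith
  have b1 : x ^ 6 * n ≤ x ^ 6 * (4 * x) := mul_le_mul_of_nonneg_left hn (by positivity)
  have b2 : 0 ≤ x ^ 4 * n ^ 2 := by positivity
  have b3 : x ^ 2 * n ^ 3 ≤ x ^ 2 * (4 * x) ^ 3 :=
    mul_le_mul_of_nonneg_left (pow_le_pow_left₀ hn0 hn 3) (by positivity)
  have b4 : n ^ 4 ≤ (4 * x) ^ 4 := pow_le_pow_left₀ hn0 hn 4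
  have c1 : 0 ≤ x ^ 3 * (x - 11) := mul_nonneg (by positivity) (by linarith)
  have c2 : 0 ≤ x ^ 2 * (x - 11) := mul_nonneg (by positivity) (by linarith)
  have c3 : 0 ≤ x * (x - 11) := mul_nonneg hx0 (by linarith)
  have c4 : 0 < 96 * x ^ 4 - 768 * x ^ 3 - 28160 * x - 57600 := by nlinarith
  have c5 : 0 < x ^ 4 * (96 * x ^ 4 - 768 * x ^ 3 - 28160 * x - 57600) :=
    mul_pos (by positivity) c4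
  nlinarith

theorem neg_large (hF : S_FORM) {m : ℕ} (hm : 313 ≤ m) :
    ∃ v, InShell m v ∧ rootSum v < 480 * (m : ℤ) ^ 4 := by
  set x := Nat.sqrt (2 * m) with hxdef
  have hx : 25 ≤ x := Nat.le_sqrt.2 (by omega)
  have h1 : x * x ≤ 2 * m := Nat.sqrt_le (2 * m)
  have h2 : 2 * m ≤ x * x + x + x := Nat.sqrt_le_add (2 * m)
  obtain ⟨a, b, c, d, hs⟩ := Nat.sum_four_squares (2 * m - x * x)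
  have hs' : (a : ℤ) ^ 2 + (b : ℤ) ^ 2 + (c : ℤ) ^ 2 + (d : ℤ) ^ 2 = 2 * (m : ℤ) - (x : ℤ) ^ 2 := by
    have h3 : a ^ 2 + b ^ 2 + c ^ 2 + d ^ 2 + x ^ 2 = 2 * m := by
      rw [hs, pow_two]; omega
    have h4 := congrArg (Nat.cast : ℕ → ℤ) h3
    push_cast at h4
    linarith
  obtain ⟨q0, q1, q2, q3, q4, q5, q6⟩ := qbounds a b c d _ hs'
  have hn : 2 * (m : ℤ) - (x : ℤ) ^ 2 ≤ 2 * (x : ℤ) := by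
    have h4 : (2 * m : ℤ) ≤ (x : ℤ) * x + x + x := by exact_mod_cast h2
    nlinarith
  have hx' : (25 : ℤ) ≤ x := by exact_mod_cast hx
  have key := neg_ineq hx' q0 hn q1 q2 q4 q5
  obtain ⟨k1, k2⟩ := form hF x a b c d 0 m (by linarith)
  refine ⟨_, k1, ?_⟩
  have e : G ((x : ℤ) ^ 2 + (a : ℤ) ^ 2 + (b : ℤ) ^ 2 + (c : ℤ) ^ 2 + (d : ℤ) ^ 2 + 0 ^ 2)
        ((x : ℤ) ^ 4 + (a : ℤ) ^ 4 + (b : ℤ) ^ 4 + (c : ℤ) ^ 4 + (d : ℤ) ^ 4 + 0 ^ 4)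
        ((x : ℤ) ^ 6 + (a : ℤ) ^ 6 + (b : ℤ) ^ 6 + (c : ℤ) ^ 6 + (d : ℤ) ^ 6 + 0 ^ 6)
        ((x : ℤ) ^ 8 + (a : ℤ) ^ 8 + (b : ℤ) ^ 8 + (c : ℤ) ^ 8 + (d : ℤ) ^ 8 + 0 ^ 8) < 0 := by
    rw [← hs'] at key
    convert key using 2 <;> ring
  linarith

theorem pos_large (hF : S_FORM) {m : ℕ} (hm : 121 ≤ m) :
    ∃ v, InShell m v ∧ 480 * (m : ℤ) ^ 4 < rootSum v := by
  set x := Nat.sqrt m with hxdef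
  have hx : 11 ≤ x := Nat.le_sqrt.2 (by omega)
  have h1 : x * x ≤ m := Nat.sqrt_le m
  have h2 : m ≤ x * x + x + x := Nat.sqrt_le_add m
  obtain ⟨a, b, c, d, hs⟩ := Nat.sum_four_squares (2 * (m - x * x))
  have hs' : (a : ℤ) ^ 2 + (b : ℤ) ^ 2 + (c : ℤ) ^ 2 + (d : ℤ) ^ 2 =
      2 * (m : ℤ) - 2 * (x : ℤ) ^ 2 := by
    have h3 : a ^ 2 + b ^ 2 + c ^ 2 + d ^ 2 + 2 * x ^ 2 = 2 * m := by
      rw [hs, pow_two]; omega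
    have h4 := congrArg (Nat.cast : ℕ → ℤ) h3
    push_cast at h4
    linarith
  obtain ⟨q0, q1, q2, q3, q4, q5, q6⟩ := qbounds a b c d _ hs'
  have hn : 2 * (m : ℤ) - 2 * (x : ℤ) ^ 2 ≤ 4 * (x : ℤ) := by
    have h4 : (m : ℤ) ≤ (x : ℤ) * x + x + x := by exact_mod_cast h2
    nlinarith
  have hx' : (11 : ℤ) ≤ x := by exact_mod_cast hx
  have key := pos_ineq hx' q0 hn q1 q2 q3 q6
  obtain ⟨k1, k2⟩ := form hF x x a b c d m (by linarith)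
  refine ⟨_, k1, ?_⟩
  have e : 0 < G ((x : ℤ) ^ 2 + (x : ℤ) ^ 2 + (a : ℤ) ^ 2 + (b : ℤ) ^ 2 + (c : ℤ) ^ 2 + (d : ℤ) ^ 2)
        ((x : ℤ) ^ 4 + (x : ℤ) ^ 4 + (a : ℤ) ^ 4 + (b : ℤ) ^ 4 + (c : ℤ) ^ 4 + (d : ℤ) ^ 4)
        ((x : ℤ) ^ 6 + (x : ℤ) ^ 6 + (a : ℤ) ^ 6 + (b : ℤ) ^ 6 + (c : ℤ) ^ 6 + (d : ℤ) ^ 6)
        ((x : ℤ) ^ 8 + (x : ℤ) ^ 8 + (a : ℤ) ^ 8 + (b : ℤ) ^ 8 + (c : ℤ) ^ 8 + (d : ℤ) ^ 8) := by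
    rw [← hs'] at key
    convert key using 2 <;> ring
  linarith

theorem t_SIGNS (hF : S_FORM) : S_SIGNS := by
  intro m hm
  constructor
  · rcases hm with rfl | hm
    · exact neg_of_ok hF (t := (2, 1, 1, 1, 1, 0)) (by decide +kernel)
    · rcases Nat.lt_or_ge m 313 with h | h
      · obtain ⟨t, ht⟩ := of_chk okN tabN 7 tabN_ok m hm (by
          have : tabN.length = 306 := by decide +kernel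
          omega)
        exact neg_of_ok hF ht
      · exact neg_large hF h
  · rcases hm with rfl | hm
    · exact pos_of_ok hF (t := (2, 2, 0, 0, 0, 0)) (by decide +kernel)
    · rcases Nat.lt_or_ge m 121 with h | h
      · obtain ⟨t, ht⟩ := of_chk okP tabP 7 tabP_ok m hm (by
          have : tabP.length = 114 := by decide +kernel
          omega)
        exact pos_of_ok hF ht
      · exact pos_large hF h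

end Pool.Agent.Helper44.E8C.Signs
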